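import Pool.Agent.H17.AH.TargetsA
import Pool.Agent.H30.VM.TargetsB

/-!
# MP_70ba79_ag: module FNLT of the board `ahy_modules`

Velocities as functionals of the symbol, for families of forms.
-/

set_option autoImplicit false

namespace Pool.Agent.H54.AH

open MvPolynomial SC Pool.Agent.H27.LV Pool.Agent.H17.VG
open Pool.Agent.H30.VM Pool.Agent.H17.BO Pool.Agent.H17.AH
open Pool.Agent.H17.CI (Tup IlT PQT TxT frmT upT RatT)

section Aux

variable {R K : Type} [Field R] [Field K] [Algebra R K] {n : ℕ}

theorem opF_single (j a : Fin (n + 1)) (P : MvPolynomial (Fin (n + 1)) K) :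
    opF ((0, Matrix.single a j 1) : Op R K n) P = X j * pderiv a P := by
  classical
  unfold opF cD
  simp only [Derivation.zero_apply, map_zero, Finset.sum_const_zero, zero_add]
  rw [Finset.sum_eq_single a]
  · congr 1
    rw [Finset.sum_eq_single j]
    · simp
    · intro b _ hb
      rw [Matrix.single_apply_of_col_ne _ _ (Ne.symm hb)]
      simp
    · simp
  · intro b _ hb
    rw [Finset.sum_eq_zero, zero_mul]
    intro l _
    rw [Matrix.single_apply_of_row_ne (Ne.symm hb)]
    simp
  · simp

theorem opV_single (j a : Fin (n + 1)) (x ν : Fin (n + 1) → K) :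
    ∑ i, ν i * opV ((0, Matrix.single a j 1) : Op R K n) x i = -(x j * ν a) := by
  classical
  unfold opV
  simp only [Derivation.zero_apply, zero_sub]
  rw [Finset.sum_eq_single a]
  · rw [Finset.sum_eq_single j]
    · simp [mul_comm]
    · intro b _ hb
      rw [Matrix.single_apply_of_col_ne _ _ (Ne.symm hb)]
      simp
    · simp
  · intro b _ hb
    rw [Finset.sum_eq_zero]
    · simp
    · intro l _
      rw [Matrix.single_apply_of_row_ne (Ne.symm hb)]
      simp
  · simp

theorem opF_one {d : ℕ} (P : MvPolynomial (Fin (n + 1)) K) (hP : P.IsHomogeneous d) :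
    opF ((0, 1) : Op R K n) P = C (d : K) * P := by
  classical
  unfold opF cD
  simp only [Derivation.zero_apply, map_zero, Finset.sum_const_zero, zero_add]
  have h1 : ∀ i : Fin (n + 1), (∑ j, C ((1 : Matrix (Fin (n + 1)) (Fin (n + 1)) K) i j) * X j :
      MvPolynomial (Fin (n + 1)) K) = X i := by
    intro i
    rw [Finset.sum_eq_single i]
    · simp
    · intro b _ hb
      rw [Matrix.one_apply_ne (Ne.symm hb)]
      simp
    · simp
  simp only [h1]
  rw [hP.sum_X_mul_pderiv]
  simp

theorem opV_one (x ν : Fin (n + 1) → K) (h : ∑ i, ν i * x i = 0) :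
    ∑ i, ν i * opV ((0, 1) : Op R K n) x i = 0 := by
  classical
  unfold opV
  simp only [Derivation.zero_apply, zero_sub]
  have h1 : ∀ i : Fin (n + 1), ∑ j, (1 : Matrix (Fin (n + 1)) (Fin (n + 1)) K) i j * x j = x i := by
    intro i
    rw [Finset.sum_eq_single i]
    · simp
    · intro b _ hb
      rw [Matrix.one_apply_ne (Ne.symm hb)]
      simp
    · simp
  simp only [h1, mul_neg, Finset.sum_neg_distrib, h, neg_zero]

end Aux

theorem pf_FNLT (hWD : Pool.Agent.H30.VM.T_WDT) (hSY : Pool.Agent.H30.VM.T_SY)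
    (hOP : Pool.Agent.H17.VG.T_OP) : T_FNLT := by
  classical
  intro R K _ _ _ _ n ι _ i₀ e F D x ν hS hνx hν
  -- families with one monomial and chosen operators
  let G0 : (Σ i, Mon (n + 1) (e i + 1)) → Tup ι K n := fun p =>
    Pi.single p.1 (mono K p.2.1)
  have hG0 : ∀ p, ∀ i, (G0 p i).IsHomogeneous (e i + 1) := by
    intro p i
    by_cases h : i = p.1
    · subst h
      simp only [G0, Pi.single_eq_same]
      exact isHomogeneous_mono p.2
    · simp only [G0, Pi.single_eq_of_ne h]
      exact isHomogeneous_zero _ _ _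
  have h1 : ∀ p, ∃ (τ : Op R K n) (l : ι → K), Sym i₀ F τ l (G0 p) :=
    fun p => hS.surj _ (hG0 p)
  choose τM lM hM using h1
  have h0 : Sym i₀ F (0 : Op R K n) 0 0 ∧ opV (0 : Op R K n) x = 0 := by
    obtain ⟨τ, l, h⟩ := hS.surj 0 (fun i => isHomogeneous_zero _ _ _)
    have h2 := (hSY R K n ι i₀ e F τ τ l l 0 0 0 0 hS.homog h h).1
    obtain ⟨-, -, -, h4, -⟩ := hOP R K n 0 (0 : Op R K n) 0 (F i₀) (F i₀) 0 0 x
    simp only [zero_smul, add_zero] at h2 h4
    exact ⟨h2, h4⟩
  have hlin : ∀ (s : Finset (Σ i, Mon (n + 1) (e i + 1)))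
      (c : (Σ i, Mon (n + 1) (e i + 1)) → K),
      Sym i₀ F (∑ p ∈ s, c p • τM p) (∑ p ∈ s, c p • lM p) (∑ p ∈ s, c p • G0 p) ∧
      opV (∑ p ∈ s, c p • τM p) x = ∑ p ∈ s, c p • opV (τM p) x := by
    intro s c
    induction s using Finset.induction_on with
    | empty => simpa using h0
    | insert a s ha ih =>
      obtain ⟨-, -, -, h4, -⟩ := hOP R K n 0 (τM a) (∑ p ∈ s, c p • τM p) (F i₀) (F i₀) (c a) 1 x
      have h5 := (hSY R K n ι i₀ e F (τM a) (∑ p ∈ s, c p • τM p) (lM a) (∑ p ∈ s, c p • lM p)
        (G0 a) (∑ p ∈ s, c p • G0 p) (c a) 1 hS.homog (hM a) ih.1).1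
      rw [one_smul] at h4
      rw [one_smul, one_smul, one_smul] at h5
      rw [Finset.sum_insert ha, Finset.sum_insert ha, Finset.sum_insert ha, Finset.sum_insert ha,
        h4, ih.2]
      refine ⟨h5, ?_⟩
      simp
  have hdec : ∀ G : Tup ι K n, (∀ i, (G i).IsHomogeneous (e i + 1)) →
      G = ∑ p : (Σ i, Mon (n + 1) (e i + 1)), coeff (fs p.2.1) (G p.1) • G0 p := by
    intro G hG
    funext i
    rw [Finset.sum_apply, Fintype.sum_sigma, Finset.sum_eq_single i]
    · simp only [G0, Pi.smul_apply, Pi.single_eq_same]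
      rw [dec (hG i)]
      refine Finset.sum_congr rfl fun M _ => ?_
      rw [← dec (hG i), smul_eq_C_mul]
    · intro b _ hb
      refine Finset.sum_eq_zero fun M _ => ?_
      simp only [G0, Pi.smul_apply, Pi.single_eq_of_ne (Ne.symm hb), smul_zero]
    · simp
  have key : ∀ (τ : Op R K n) (l : ι → K) (G : Tup ι K n), Sym i₀ F τ l G →
      fnT (fun p : (Σ i, Mon (n + 1) (e i + 1)) => ∑ i, ν i * opV (τM p) x i) G =
        ∑ i, ν i * opV τ x i := by
    intro τ l G h
    have hh : ∀ i, (G i).IsHomogeneous (e i + 1) :=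
      (hSY R K n ι i₀ e F τ τ l l G G 0 0 hS.homog h h).2
    obtain ⟨hl1, hl2⟩ := hlin Finset.univ (fun p => coeff (fs p.2.1) (G p.1))
    rw [← hdec G hh] at hl1
    obtain ⟨c, hc⟩ := hWD R K n ι i₀ e F D hS _ _ _ _ G h hl1
    have h6 := hc x
    rw [h6, hl2]
    have hf : fnT (fun p : (Σ i, Mon (n + 1) (e i + 1)) => ∑ i, ν i * opV (τM p) x i) G =
        ∑ p : (Σ i, Mon (n + 1) (e i + 1)), (∑ i, ν i * opV (τM p) x i) *
          coeff (fs p.2.1) (G p.1) := by
      rw [Fintype.sum_sigma]
      rfl
    rw [hf]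
    simp only [Pi.add_apply, Finset.sum_apply, Pi.smul_apply, smul_eq_mul, mul_add,
      Finset.sum_add_distrib, Finset.sum_mul, Finset.mul_sum]
    rw [Finset.sum_comm]
    have h7 : ∑ i, ν i * (c * D (x i)) = 0 := by
      calc ∑ i, ν i * (c * D (x i)) = c * ∑ i, ν i * D (x i) := by
            rw [Finset.mul_sum]; exact Finset.sum_congr rfl fun i _ => by ring
        _ = 0 := by rw [hν, mul_zero]
    rw [h7, add_zero]
    exact Finset.sum_congr rfl fun i _ => Finset.sum_congr rfl fun M _ => by ring
  refine ⟨_, key, fun j a => ?_, fun i => ?_⟩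
  · have h8 : Sym i₀ F ((0, Matrix.single a j 1) : Op R K n) 0
        (fun i => X j * pderiv a (F i)) := by
      refine ⟨rfl, fun i => ?_⟩
      rw [opF_single]
      simp
    rw [key _ _ _ h8, opV_single]
  · by_cases hi : i = i₀
    · subst hi
      have h9 : Sym i F ((0, 1) : Op R K n) (fun j => if j = i then 0 else -((e j + 1 : ℕ) : K))
          (fun j => if j = i then C ((e i + 1 : ℕ) : K) * F j else 0) := by
        refine ⟨by simp, fun j => ?_⟩
        rw [opF_one (F j) (hS.homog j)]
        by_cases hj : j = i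
        · subst hj
          simp
        · simp only [if_neg hj]
          rw [← add_mul, ← C_add, add_neg_cancel, C_0, zero_mul]
      have h10 := key _ _ _ h9
      rw [opV_one x ν hνx] at h10
      have h11 : ∀ y : (Σ i, Mon (n + 1) (e i + 1)) → K,
          fnT y (fun j => if j = i then C ((e i + 1 : ℕ) : K) * F j else 0) =
          ((e i + 1 : ℕ) : K) * fnT y (fun j => letI := Classical.decEq ι;
            if j = i then F j else 0) := by
        intro y
        unfold fnT fnl
        rw [Finset.mul_sum]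
        refine Finset.sum_congr rfl fun j _ => ?_
        rw [Finset.mul_sum]
        refine Finset.sum_congr rfl fun M _ => ?_
        by_cases hj : j = i
        · simp only [if_pos hj, coeff_C_mul]
          ring
        · simp only [if_neg hj, coeff_zero]
          ring
      rw [h11] at h10
      rcases mul_eq_zero.1 h10 with h | h
      · exact absurd h (Nat.cast_ne_zero.2 (Nat.succ_ne_zero _))
      · exact h
    · have h9 : Sym i₀ F (0 : Op R K n) (Pi.single i 1)
          (fun j => letI := Classical.decEq ι; if j = i then F j else 0) := by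
        refine ⟨by rw [Pi.single_eq_of_ne (Ne.symm hi)], fun j => ?_⟩
        have h10 := h0.1.2 j
        simp only [Pi.zero_apply, C_0, zero_mul, add_zero] at h10
        rw [h10, zero_add]
        by_cases hj : j = i
        · subst hj
          simp
        · simp only [if_neg hj, Pi.single_eq_of_ne hj, C_0, zero_mul]
      rw [key _ _ _ h9, h0.2]
      simp

end Pool.Agent.H54.AH
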