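import Pool.Agent.H17.AH.TargetsC
import Pool.Agent.H17.AH.TargetsD
import Pool.Agent.H17.BO.TargetsC
import Pool.Agent.H17.BO.TargetsD
import Pool.Agent.H30.VM.TargetsG
import Pool.Agent.H27.LV.Gen

/-!
# KLVH: the algebraic theorem relative to a field `k` which is algebraically closed in `L`

Compare `Pool/Agent/H11/BO/KLV.lean`.
-/

set_option autoImplicit false

namespace Pool.Agent.H54.AH

open MvPolynomial SC Pool.Agent.H27.LV Pool.Agent.H17.VG
open Pool.Agent.H30.VM Pool.Agent.H17.BO Pool.Agent.H17.AH
open Pool.Agent.H17.CI (Tup IlT PQT TxT frmT upT RatT)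

section Up

variable {k L : Type} [Field k] [Field L] [Algebra k L] {n : ℕ}

private lemma up_frm' {e : ℕ} (c : Mon (n + 1) e → k) :
    up L (frm c) = frm (fun M => algebraMap k L (c M)) := by
  unfold up frm
  rw [map_sum]
  refine Finset.sum_congr rfl fun M _ => ?_
  rw [map_mul, map_C]
  unfold mono
  rw [map_monomial, map_one]

private lemma up_tower {Ω : Type} [Field Ω] [Algebra L Ω] [Algebra k Ω] [IsScalarTower k L Ω]
    (G : MvPolynomial (Fin (n + 1)) k) : up Ω (up L G) = up Ω G := by
  unfold up
  rw [map_map, ← IsScalarTower.algebraMap_eq]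

private lemma up_homog' {d : ℕ} {G : MvPolynomial (Fin (n + 1)) k}
    (hG : G.IsHomogeneous d) : (up L G).IsHomogeneous d := hG.map _

private lemma fnl_up {d : ℕ} (y : Mon (n + 1) d → k) (G : MvPolynomial (Fin (n + 1)) k) :
    fnl (fun M => algebraMap k L (y M)) (up L G) = algebraMap k L (fnl y G) := by
  unfold fnl up
  rw [map_sum]
  refine Finset.sum_congr rfl fun M _ => ?_
  rw [coeff_map, map_mul]

private lemma up_X_mul (j : Fin (n + 1)) (G : MvPolynomial (Fin (n + 1)) k) :
    up L (X j * G) = X j * up L G := by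
  unfold up
  rw [map_mul, map_X]

private lemma det3_up {d : ℕ} (x : Fin (n + 1) → k) (y : Fin 2 → Mon (n + 1) d → k)
    (Q : MvPolynomial (Fin (n + 1)) k) (a : Fin 3 → Fin (n + 1)) :
    det3 (fun i => algebraMap k L (x i)) (fun b M => algebraMap k L (y b M)) (up L Q) a =
      algebraMap k L (det3 x y Q a) := by
  unfold det3
  rw [RingHom.map_det]
  congr 1
  funext t r
  rw [RingHom.mapMatrix_apply, Matrix.map_apply, Matrix.of_apply, Matrix.of_apply,
    ← up_X_mul, fnl_up, fnl_up]
  fin_cases r <;> rfl

private lemma eval_up_map (x : Fin (n + 1) → k) (G : MvPolynomial (Fin (n + 1)) k) :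
    eval (fun i => algebraMap k L (x i)) (up L G) = algebraMap k L (eval x G) := by
  unfold up
  have := eval₂_comp_left (algebraMap k L) (RingHom.id k) x G
  rw [eval_map]
  rw [show eval x G = eval₂ (RingHom.id k) x G from rfl, this]
  rfl

private lemma pd_up (a : Fin (n + 1)) (G : MvPolynomial (Fin (n + 1)) k) :
    pderiv a (up L G) = up L (pderiv a G) := pderiv_map

/-- linear independence and determinants -/
private lemma li3 {K : Type} [Field K] (A B C : Fin 3 → K) :
    LinearIndependent K ![A, B, C] ↔ (Matrix.of ![A, B, C]).det ≠ 0 := by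
  have h := Matrix.linearIndependent_rows_iff_isUnit (A := Matrix.of ![A, B, C])
  rw [Matrix.isUnit_iff_isUnit_det, isUnit_iff_ne_zero] at h
  exact h

private lemma bil_map (q : Matrix (Fin 3) (Fin 3) k) (u v : Fin 3 → k) :
    bil (q.map (algebraMap k L)) (fun i => algebraMap k L (u i)) (fun i => algebraMap k L (v i)) =
      algebraMap k L (bil q u v) := by
  unfold bil
  simp only [map_sum, map_mul, Matrix.map_apply]

private lemma onC_map (q : Matrix (Fin 3) (Fin 3) k) (A B C : Fin 3 → k) (h : OnC q A B C) :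
    OnC (q.map (algebraMap k L)) (fun i => algebraMap k L (A i)) (fun i => algebraMap k L (B i))
      (fun i => algebraMap k L (C i)) where
  ind := by
    have h1 := (linearIndependent_algebraMap_comp_iff (S := L)).2 h.ind
    have h2 : (fun i => algebraMap k L ∘ ![A, B, C] i) = ![(fun i => algebraMap k L (A i)),
        (fun i => algebraMap k L (B i)), (fun i => algebraMap k L (C i))] := by
      funext i
      fin_cases i <;> rfl
    rw [h2] at h1
    exact h1
  aa := by rw [bil_map, h.aa, map_zero]
  ab := by rw [bil_map, h.ab, map_zero]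
  bb := by
    have := congrArg (algebraMap k L) h.bb
    rw [map_add, map_mul, map_zero, map_ofNat] at this
    rw [bil_map, bil_map]
    exact this
  bc := by rw [bil_map, h.bc, map_zero]
  cc := by rw [bil_map, h.cc, map_zero]

private lemma onC_on (q : Matrix (Fin 3) (Fin 3) k) (hq : q.IsSymm) (A B C : Fin 3 → k)
    (h : OnC q A B C) (u v : k) :
    bil q (fun i => u ^ 2 * A i + u * v * B i + v ^ 2 * C i)
      (fun i => u ^ 2 * A i + u * v * B i + v ^ 2 * C i) = 0 := by
  have h1 := h.aa
  have h2 := h.ab
  have h3 := h.bb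
  have h4 := h.bc
  have h5 := h.cc
  have s1 := hq.apply 0 1
  have s2 := hq.apply 0 2
  have s3 := hq.apply 1 2
  unfold bil at *
  simp only [Fin.sum_univ_three] at *
  rw [s1, s2, s3] at *
  linear_combination u ^ 4 * h1 + 2 * u ^ 3 * v * h2 + u ^ 2 * v ^ 2 * h3 + 2 * u * v ^ 3 * h4 +
    v ^ 4 * h5

end Up

private lemma eval_scale' {K σ : Type} [Field K] {F : MvPolynomial σ K} {d : ℕ}
    (hF : F.IsHomogeneous d) (c : K) (z : σ → K) :
    eval (fun i => c * z i) F = c ^ d * eval z F := by
  rw [eval_eq, eval_eq, Finset.mul_sum]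
  refine Finset.sum_congr rfl fun s hs => ?_
  have h1 : ∑ i ∈ s.support, s i = d := by
    have := hF (mem_support_iff.1 hs)
    rw [← this, Finsupp.weight_apply, Finsupp.sum]
    simp
  simp only [mul_pow]
  rw [Finset.prod_mul_distrib, Finset.prod_pow_eq_pow_sum, h1]
  ring

/-- a form which vanishes on a conic -/
private lemma whole {K Ω : Type} [Field K] [Infinite K] [Field Ω] [Algebra K Ω] {n : ℕ}
    (F : MvPolynomial (Fin (n + 1)) K) (a b c : Fin (n + 1) → K)
    (h : ∀ s t : K, eval (fun l => s ^ 2 * a l + s * t * b l + t ^ 2 * c l) F = 0) (s t : Ω) :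
    eval (fun l => s ^ 2 * algebraMap K Ω (a l) + s * t * algebraMap K Ω (b l) +
      t ^ 2 * algebraMap K Ω (c l)) (up Ω F) = 0 := by
  have h1 : aeval (fun l => (X 0 ^ 2 * C (a l) + X 0 * X 1 * C (b l) + X 1 ^ 2 * C (c l) :
      MvPolynomial (Fin 2) K)) F = 0 := by
    apply MvPolynomial.funext
    intro g
    rw [map_zero, ← coe_aeval_eq_eval, RingHom.coe_coe, comp_aeval_apply]
    have := h (g 0) (g 1)
    rw [← coe_aeval_eq_eval, RingHom.coe_coe] at this
    rw [← this]
    congr 2
    funext l
    simp
  have h2 := congrArg (aeval ![s, t]) h1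
  rw [comp_aeval_apply, map_zero] at h2
  rw [up, eval_map, ← aeval_def, ← h2]
  congr 2
  funext l
  simp

private lemma li_coef {K : Type} [Field K] {A B C : Fin 3 → K}
    (hli : LinearIndependent K ![A, B, C]) (a b c : K)
    (h : ∀ i, a * A i + b * B i + c * C i = 0) : a = 0 ∧ b = 0 ∧ c = 0 := by
  rw [Fintype.linearIndependent_iff] at hli
  have := hli ![a, b, c] (by
    rw [Fin.sum_univ_three]
    funext i
    exact h i)
  exact ⟨this 0, this 1, this 2⟩

private lemma res2_eval {L Ω : Type} [Field L] [Field Ω] [Algebra L Ω] {n : ℕ}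
    (F : MvPolynomial (Fin (n + 1)) L) (x b c : Fin (n + 1) → L) (α : Ω) :
    ((res2 x b c F).map (algebraMap L Ω)).eval α =
      eval (fun i => algebraMap L Ω (x i) + α * algebraMap L Ω (b i) +
        α ^ 2 * algebraMap L Ω (c i)) (up Ω F) := by
  rw [Polynomial.eval_map, ← Polynomial.aeval_def, res2, comp_aeval_apply, up, eval_map,
    ← aeval_def]
  congr 2
  funext i
  rw [map_add, map_add, map_mul, map_mul, map_pow, Polynomial.aeval_C, Polynomial.aeval_C,
    Polynomial.aeval_C, Polynomial.aeval_X]
  ring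

private lemma li_up {K : Type} [Field K] {n : ℕ} (P : Fin (n + 1) → Fin 3 → K)
    (s : Fin 3 → Fin (n + 1)) (hP : ∀ t u, P (s t) u = if t = u then 1 else 0)
    (a b c : Fin 3 → K) (hli : LinearIndependent K ![a, b, c]) :
    LinearIndependent K ![fun j => ∑ t, P j t * a t, fun j => ∑ t, P j t * b t,
      fun j => ∑ t, P j t * c t] := by
  let T : (Fin 3 → K) →ₗ[K] (Fin (n + 1) → K) :=
    LinearMap.pi fun j => ∑ t, P j t • LinearMap.proj t
  have hT : ∀ z, T z = fun j => ∑ t, P j t * z t := by
    intro z
    funext j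
    simp only [T, LinearMap.pi_apply, LinearMap.sum_apply, LinearMap.smul_apply,
      LinearMap.proj_apply, smul_eq_mul]
  have hker : LinearMap.ker T = ⊥ := by
    rw [LinearMap.ker_eq_bot']
    intro z hz
    funext t
    have h1 := congrFun hz (s t)
    rw [hT] at h1
    simp only [hP, ite_mul, one_mul, zero_mul, Finset.sum_ite_eq, Finset.mem_univ, if_true] at h1
    exact h1
  have h2 := hli.map' T hker
  have h3 : T ∘ ![a, b, c] = ![T a, T b, T c] := by
    funext i
    fin_cases i <;> rfl
  rw [h3, hT, hT, hT] at h2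
  exact h2

private lemma hom_cast {K : Type} [Field K] {n d d' : ℕ} {G : MvPolynomial (Fin (n + 1)) K}
    (h : d = d') (hG : G.IsHomogeneous d) : G.IsHomogeneous d' := h ▸ hG

/-- a form of degree one -/
private lemma lin_form {K : Type} [Field K] {n : ℕ} {H : MvPolynomial (Fin (n + 1)) K}
    (hH : H.IsHomogeneous 1) : ∃ h : Fin (n + 1) → K, H = ∑ a, C (h a) * X a := by
  refine ⟨fun a => coeff 0 (pderiv a H), ?_⟩
  have h1 := hH.sum_X_mul_pderiv
  rw [one_smul] at h1
  conv_lhs => rw [← h1]
  refine Finset.sum_congr rfl fun a _ => ?_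
  have h2 : (pderiv a H).IsHomogeneous 0 := hH.pderiv
  have h3 : pderiv a H = C (coeff 0 (pderiv a H)) :=
    totalDegree_eq_zero_iff_eq_C.1 (Nat.le_zero.1 h2.totalDegree_le)
  rw [← h3, mul_comm]

private lemma eval_lin_up {K Ω : Type} [Field K] [Field Ω] [Algebra K Ω] {n : ℕ}
    (h : Fin (n + 1) → K) (w : Fin (n + 1) → Ω) :
    eval w (up Ω (∑ a, C (h a) * X a)) = ∑ a, algebraMap K Ω (h a) * w a := by
  unfold up
  simp only [map_sum, map_mul, map_C, map_X, eval_C, eval_X]

private lemma up_self {K : Type} [Field K] {n : ℕ} (G : MvPolynomial (Fin (n + 1)) K) :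
    up K G = G := by
  unfold up
  rw [Algebra.algebraMap_self, map_id]

private lemma fnl_dir {K : Type} [Field K] {n d : ℕ} (y : Mon (n + 1) d → K)
    (F : MvPolynomial (Fin (n + 1)) K) (j : Fin (n + 1)) (w : Fin (n + 1) → K) :
    fnl y (X j * dir w F) = ∑ a, w a * fnl y (X j * pderiv a F) := by
  unfold fnl dir
  simp only [Finset.mul_sum, coeff_sum]
  rw [Finset.sum_comm]
  refine Finset.sum_congr rfl fun a _ => Finset.sum_congr rfl fun M _ => ?_
  rw [show X j * (C (w a) * pderiv a F) = C (w a) * (X j * pderiv a F) by ring, coeff_C_mul]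
  ring

/-- functionals over an extension -/
private lemma funH_up {K Ω : Type} [Field K] [Field Ω] [Algebra K Ω] {n d : ℕ}
    (F H : MvPolynomial (Fin (n + 1)) K) (hH : H.IsHomogeneous 1)
    (x : Fin (n + 1) → K) (y : Fin 2 → Mon (n + 1) d → K) (ν : Fin 2 → Fin (n + 1) → K)
    (hx : eval x H ≠ 0) (h : FunH F H x y ν) :
    FunH (up Ω F) (up Ω H) (fun i => algebraMap K Ω (x i))
      (fun b M => algebraMap K Ω (y b M)) (fun b i => algebraMap K Ω (ν b i)) where
  ind := by
    have h1 := (linearIndependent_algebraMap_comp_iff (S := Ω)).2 h.ind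
    have h2 : (fun i => algebraMap K Ω ∘ ![ν 0, ν 1, fun a => eval x (pderiv a F)] i) =
        ![(fun i => algebraMap K Ω (ν 0 i)), (fun i => algebraMap K Ω (ν 1 i)),
        (fun a => eval (fun i => algebraMap K Ω (x i)) (pderiv a (up Ω F)))] := by
      funext i
      fin_cases i
      · rfl
      · rfl
      · funext a
        show algebraMap K Ω (eval x (pderiv a F)) = _
        rw [← eval_up_map, ← pd_up]
        rfl
    rw [h2] at h1
    exact h1
  grad b j w hw := by
    obtain ⟨g, hg⟩ := lin_form hH
    have hev : ∀ v : Fin (n + 1) → K, eval v H = ∑ a, g a * v a := by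
      intro v
      have := eval_lin_up (Ω := K) g v
      rw [← hg, up_self] at this
      exact this
    -- the defect is a multiple of `H`
    have h1 : ∀ v : Fin (n + 1) → K, eval v H = 0 →
        ∑ a, v a * (fnl (y b) (X j * pderiv a F) + x j * ν b a) = 0 := by
      intro v hv
      have h2 := h.grad b j v hv
      rw [fnl_dir] at h2
      simp only [mul_add, Finset.sum_add_distrib]
      rw [h2, Finset.mul_sum, ← sub_eq_neg_add, sub_eq_zero]
      exact Finset.sum_congr rfl fun a _ => by ring
    have h2 : ∃ μ : K, ∀ a, fnl (y b) (X j * pderiv a F) + x j * ν b a = g a * μ := by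
      refine ⟨(eval x H)⁻¹ * ∑ c, x c * (fnl (y b) (X j * pderiv c F) + x j * ν b c),
        fun a => ?_⟩
      have h3 := h1 (fun i => eval x H * (if i = a then 1 else 0) - g a * x i) (by
        rw [hev]
        simp only [mul_sub, Finset.sum_sub_distrib]
        have h4 : ∑ i, g i * (eval x H * (if i = a then (1 : K) else 0)) = g a * eval x H := by
          rw [Finset.sum_eq_single a]
          · simp
          · intro i _ hi
            simp [hi]
          · simp
        have h5 : ∑ i, g i * (g a * x i) = g a * eval x H := by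
          rw [hev, Finset.mul_sum]
          exact Finset.sum_congr rfl fun i _ => by ring
        rw [h4, h5, sub_self])
      simp only [sub_mul, Finset.sum_sub_distrib] at h3
      have h4 : ∑ i, eval x H * (if i = a then (1 : K) else 0) *
          (fnl (y b) (X j * pderiv i F) + x j * ν b i) =
          eval x H * (fnl (y b) (X j * pderiv a F) + x j * ν b a) := by
        rw [Finset.sum_eq_single a]
        · simp
        · intro i _ hi
          simp [hi]
        · simp
      have h5 : ∑ i, g a * x i * (fnl (y b) (X j * pderiv i F) + x j * ν b i) =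
          g a * ∑ i, x i * (fnl (y b) (X j * pderiv i F) + x j * ν b i) := by
        rw [Finset.mul_sum]
        exact Finset.sum_congr rfl fun i _ => by ring
      rw [h4, h5] at h3
      have h6 := sub_eq_zero.1 h3
      calc fnl (y b) (X j * pderiv a F) + x j * ν b a
          = (eval x H)⁻¹ * (eval x H * (fnl (y b) (X j * pderiv a F) + x j * ν b a)) := by
            rw [← mul_assoc, inv_mul_cancel₀ hx, one_mul]
        _ = _ := by
            rw [h6]
            ring
    obtain ⟨μ, hμ⟩ := h2
    rw [hg, eval_lin_up] at hw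
    rw [fnl_dir]
    have h3 : ∀ a, fnl (fun M => algebraMap K Ω (y b M)) (X j * pderiv a (up Ω F)) =
        algebraMap K Ω (g a) * algebraMap K Ω μ - algebraMap K Ω (x j) *
          algebraMap K Ω (ν b a) := by
      intro a
      rw [pd_up, ← up_X_mul, fnl_up, ← map_mul, ← map_mul, ← map_sub]
      congr 1
      rw [← hμ a]
      ring
    simp only [h3]
    have h4 : ∑ a, w a * (algebraMap K Ω (g a) * algebraMap K Ω μ - algebraMap K Ω (x j) *
          algebraMap K Ω (ν b a)) = algebraMap K Ω μ * (∑ a, algebraMap K Ω (g a) * w a) -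
          algebraMap K Ω (x j) * ∑ a, algebraMap K Ω (ν b a) * w a := by
      rw [Finset.mul_sum, Finset.mul_sum, ← Finset.sum_sub_distrib]
      exact Finset.sum_congr rfl fun a _ => by ring
    rw [h4, hw]
    ring
  mul b := by
    rw [fnl_up, h.mul b, map_zero]
  orth b := by
    have := congrArg (algebraMap K Ω) (h.orth b)
    rw [map_sum, map_zero] at this
    rw [← this]
    exact Finset.sum_congr rfl fun i _ => (map_mul _ _ _).symm

/-- a generic form and a generic linear form -/
private lemma trv_gen (hNC : Pool.Agent.H30.VM.T_NC) (hNCT : T_NCT) {k : Type} [Field k]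
    [CharZero k] {n e e₀ : ℕ} (he₀ : e₀ = 0) (cF : Mon (n + 1) (e + 1) → k)
    (cH : Mon (n + 1) (e₀ + 1) → k) (hc : AlgebraicIndependent ℚ (Sum.elim cF cH)) :
    Trv (frm cF) (frm cH) := by
  let e' : Bool → ℕ := fun b => Bool.rec e₀ e b
  let c : (Σ i : Bool, Mon (n + 1) (e' i + 1)) → k := fun p =>
    match p with
    | ⟨true, M⟩ => cF M
    | ⟨false, M⟩ => cH M
  let φ : (Σ i : Bool, Mon (n + 1) (e' i + 1)) → Mon (n + 1) (e + 1) ⊕ Mon (n + 1) (e₀ + 1) :=
    fun p => match p with
    | ⟨true, M⟩ => Sum.inl M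
    | ⟨false, M⟩ => Sum.inr M
  have hφ : Function.Injective φ := by
    rintro ⟨a, M⟩ ⟨b, N⟩ h
    cases a <;> cases b
    · have h1 : (Sum.inr M : Mon (n + 1) (e + 1) ⊕ Mon (n + 1) (e₀ + 1)) = Sum.inr N := h
      rw [Sum.inr.inj h1]
    · have h1 : (Sum.inr M : Mon (n + 1) (e + 1) ⊕ Mon (n + 1) (e₀ + 1)) = Sum.inl N := h
      exact absurd h1 (by simp)
    · have h1 : (Sum.inl M : Mon (n + 1) (e + 1) ⊕ Mon (n + 1) (e₀ + 1)) = Sum.inr N := h
      exact absurd h1 (by simp)
    · have h1 : (Sum.inl M : Mon (n + 1) (e + 1) ⊕ Mon (n + 1) (e₀ + 1)) = Sum.inl N := h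
      rw [Sum.inl.inj h1]
  have h1 : c = Sum.elim cF cH ∘ φ := by
    funext p
    obtain ⟨a, M⟩ := p
    cases a <;> rfl
  have h2 : AlgebraicIndependent ℚ c := by
    rw [h1]
    exact hc.comp φ hφ
  have h3 := hNC k n Bool e' c h2
  exact hNCT k n Bool false true e' (frmT c) (by decide) he₀ (fun i => frm_homog _) h3

/-- KLVH with a given algebraically closed field `k'` between `k` and the algebraic closure of
`L` -/
private lemma klvh_aux (hQD : T_QD) (hNC : Pool.Agent.H30.VM.T_NC) (hNCT : T_NCT)
    (hALH : T_ALH) (hKLL : T_KLL) (hKLC : T_KLC) (hBZH : T_BZH) (hPAR : T_PAR) (hCSU : T_CSU)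
    (k L k' : Type) [Field k] [CharZero k] [Field L] [Field k'] [IsAlgClosed k'] [Algebra k L]
    [Algebra k k'] [Algebra k' (AlgebraicClosure L)] [IsScalarTower k k' (AlgebraicClosure L)]
    (hk : ∀ z : L, IsAlgebraic k z → z ∈ Set.range (algebraMap k L))
    (hk' : ∀ z : k', IsAlgebraic k z) (n e e₀ : ℕ) (he : 2 ≤ e) (he₀ : e₀ = 0)
    (cF : Mon (n + 1) (e + 1) → k) (cH : Mon (n + 1) (e₀ + 1) → k)
    (hc : AlgebraicIndependent ℚ (Sum.elim cF cH)) (x : Fin (n + 1) → L)
    (y : Fin 2 → Mon (n + 1) (e + 1) → L) (ν : Fin 2 → Fin (n + 1) → L)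
    (hFH : FunH (up L (frm cF)) (up L (frm cH)) x y ν) (hxF : eval x (up L (frm cF)) = 0)
    (hxH : eval x (up L (frm cH)) ≠ 0) (κ : L)
    (hκ : ∀ (M M' : Mon (n + 1) e) (a : Fin 3 → Fin (n + 1)), ∃ r : k,
      det3 x y (frm (Pi.single M 1 + Pi.single M' 1)) a = κ * algebraMap k L r)
    (hne : ∃ (Q : Mon (n + 1) e → k) (a : Fin 3 → Fin (n + 1)),
      det3 x y (up L (frm Q)) a ≠ 0) :
    OnLine k x ∨ ∃ B C, LinearIndependent L ![x, B, C] ∧ res2 x B C (up L (frm cF)) = 0 := by
  have : CharZero L := charZero_of_injective_algebraMap (algebraMap k L).injective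
  have : CharZero k' := charZero_of_injective_algebraMap (algebraMap k k').injective
  have : CharZero (AlgebraicClosure L) :=
    charZero_of_injective_algebraMap (algebraMap L (AlgebraicClosure L)).injective
  have : Infinite k' := IsAlgClosed.instInfinite
  have hFF : ∀ {d : ℕ} (c : Mon (n + 1) d → k), up (AlgebraicClosure L) (up L (frm c)) =
      up (AlgebraicClosure L) (frm fun M => algebraMap k k' (c M)) := by
    intro d c
    rw [up_tower, ← up_frm', up_tower]
  have hc' : AlgebraicIndependent ℚ (Sum.elim (fun M => algebraMap k k' (cF M))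
      (fun M => algebraMap k k' (cH M))) := by
    have h1 := hc.map' (f := (algebraMap k k').toRatAlgHom) (algebraMap k k').injective
    have h2 : (⇑(algebraMap k k').toRatAlgHom ∘ Sum.elim cF cH) =
        Sum.elim (fun M => algebraMap k k' (cF M)) (fun M => algebraMap k k' (cH M)) := by
      funext p
      rcases p with p | p <;> rfl
    rw [h2] at h1
    exact h1
  have htr := trv_gen hNC hNCT he₀ _ _ hc'
  have hH1 : (frm (fun M => algebraMap k k' (cH M))).IsHomogeneous 1 :=
    hom_cast (by omega) (frm_homog (fun M => algebraMap k k' (cH M)))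
  have hHL1 : (up L (frm cH)).IsHomogeneous 1 :=
    hom_cast (by omega) (up_homog' (L := L) (frm_homog cH))
  have hF2' : FunH (up (AlgebraicClosure L) (frm fun M => algebraMap k k' (cF M)))
      (up (AlgebraicClosure L) (frm fun M => algebraMap k k' (cH M)))
      (fun i => algebraMap L (AlgebraicClosure L) (x i))
      (fun b M => algebraMap L (AlgebraicClosure L) (y b M))
      (fun b i => algebraMap L (AlgebraicClosure L) (ν b i)) := by
    have h1 := funH_up (Ω := AlgebraicClosure L) _ _ hHL1 x y ν hxH hFH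
    rwa [hFF, hFF] at h1
  have hxF' : eval (fun i => algebraMap L (AlgebraicClosure L) (x i))
      (up (AlgebraicClosure L) (frm fun M => algebraMap k k' (cF M))) = 0 := by
    rw [← hFF, eval_up_map, hxF, map_zero]
  have hxH' : eval (fun i => algebraMap L (AlgebraicClosure L) (x i))
      (up (AlgebraicClosure L) (frm fun M => algebraMap k k' (cH M))) ≠ 0 := by
    rw [← hFF, eval_up_map]
    exact (map_ne_zero _).2 hxH
  obtain ⟨e1, rfl⟩ : ∃ e1, e = e1 + 1 := ⟨e - 1, by omega⟩
  have hκ' := hQD k' (AlgebraicClosure L) n (e1 + 1)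
      (fun i => algebraMap L (AlgebraicClosure L) (x i))
      (fun b M => algebraMap L (AlgebraicClosure L) (y b M))
      (algebraMap L (AlgebraicClosure L) κ) (by
    intro M M' a
    obtain ⟨r, hr⟩ := hκ M M' a
    refine ⟨algebraMap k k' r, ?_⟩
    have h1 := det3_up (L := AlgebraicClosure L) x y (frm (Pi.single M 1 + Pi.single M' 1)) a
    rw [hr, up_frm', map_mul, ← IsScalarTower.algebraMap_apply,
      IsScalarTower.algebraMap_apply k k' (AlgebraicClosure L)] at h1
    rw [← h1]
    congr 2
    funext N
    rw [Pi.add_apply, Pi.add_apply, map_add]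
    congr 1
    · by_cases h : N = M
      · subst h
        rw [Pi.single_eq_same, Pi.single_eq_same, map_one]
      · rw [Pi.single_eq_of_ne h, Pi.single_eq_of_ne h, map_zero]
    · by_cases h : N = M'
      · subst h
        rw [Pi.single_eq_same, Pi.single_eq_same, map_one]
      · rw [Pi.single_eq_of_ne h, Pi.single_eq_of_ne h, map_zero])
  have hne' : ∃ (Q : Mon (n + 1) (e1 + 1) → k') (a : Fin 3 → Fin (n + 1)),
      det3 (fun i => algebraMap L (AlgebraicClosure L) (x i))
      (fun b M => algebraMap L (AlgebraicClosure L) (y b M))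
      (up (AlgebraicClosure L) (frm Q)) a ≠ 0 := by
    obtain ⟨Q, a, hQ⟩ := hne
    refine ⟨fun M => algebraMap k k' (Q M), a, ?_⟩
    rw [← up_frm', up_tower, ← up_tower (L := L), det3_up]
    exact (map_ne_zero _).2 hQ
  rcases hALH k' (AlgebraicClosure L) n (e1 + 1) he _ _ (frm_homog _) hH1 htr _ _ _ hF2' hxF'
    hxH' _ hκ' hne' with h | ⟨A, B, C, hli, l, s0, t0, hABC⟩
  · exact Or.inl (hKLL k L k' (AlgebraicClosure L) hk hk' (n + 1) x h)
  by_cases hL : OnLine k x
  · exact Or.inl hL
  have hxs : (fun i => algebraMap L (AlgebraicClosure L) (x i)) = fun i => l * (s0 ^ 2 *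
      algebraMap k' (AlgebraicClosure L) (A i) + s0 * t0 * algebraMap k' (AlgebraicClosure L)
      (B i) + t0 ^ 2 * algebraMap k' (AlgebraicClosure L) (C i)) := funext hABC
  rcases hBZH k' n (e1 + 1 + 1) _ (frm_homog (fun M => algebraMap k k' (cF M))) A B C
    with hz | hz
  · refine Or.inr ?_
    obtain ⟨s, P, q, hP, hxP, hq, hqd, hqx, hA, hB, hC, hOn⟩ :=
      hKLC k L k' (AlgebraicClosure L) hk hk' n x hL A B C hli l s0 t0 hABC
    have hq' : (q.map (algebraMap k L)).IsSymm := hq.map _
    have hqd' : (q.map (algebraMap k L)).det ≠ 0 := by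
      have := RingHom.map_det (algebraMap k L) q
      rw [RingHom.mapMatrix_apply] at this
      rw [← this]
      exact (map_ne_zero _).2 hqd
    have hx0 : (fun a => x (s a)) ≠ 0 := by
      intro h0
      apply hL
      refine ⟨0, 0, 0, 0, fun i => ?_⟩
      rw [hxP i]
      simp only [zero_mul, add_zero]
      refine Finset.sum_eq_zero fun a _ => ?_
      rw [show x (s a) = 0 from congrFun h0 a, mul_zero]
    obtain ⟨B2, C2, hOn2⟩ := hPAR L _ hq' hqd' (fun a => x (s a)) hx0 hqx
    have hxx : (fun j => ∑ a, algebraMap k L (P j a) * x (s a)) = x := by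
      funext j
      exact (hxP j).symm
    have hOnΩ := onC_map (L := AlgebraicClosure L) _ _ _ _ hOn
    have hqq : (q.map (algebraMap k k')).map (algebraMap k' (AlgebraicClosure L)) =
        (q.map (algebraMap k L)).map (algebraMap L (AlgebraicClosure L)) := by
      ext i j
      rw [Matrix.map_apply, Matrix.map_apply, Matrix.map_apply, Matrix.map_apply,
        ← IsScalarTower.algebraMap_apply, ← IsScalarTower.algebraMap_apply]
    have hPP : ∀ i a, algebraMap L (AlgebraicClosure L) (algebraMap k L (P i a)) =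
        algebraMap k' (AlgebraicClosure L) (algebraMap k k' (P i a)) := by
      intro i a
      rw [← IsScalarTower.algebraMap_apply, ← IsScalarTower.algebraMap_apply]
    rw [hqq] at hOnΩ
    have hqΩ : ((q.map (algebraMap k L)).map (algebraMap L (AlgebraicClosure L))).IsSymm :=
      hq'.map _
    have hqdΩ : ((q.map (algebraMap k L)).map (algebraMap L (AlgebraicClosure L))).det ≠ 0 := by
      have := RingHom.map_det (algebraMap L (AlgebraicClosure L)) (q.map (algebraMap k L))
      rw [RingHom.mapMatrix_apply] at this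
      rw [← this]
      exact (map_ne_zero _).2 hqd'
    have hsum : ∀ (A : Fin (n + 1) → k'), (∀ j, A j = ∑ a, algebraMap k k' (P j a) * A (s a)) →
        ∀ l, ∑ a, algebraMap L (AlgebraicClosure L) (algebraMap k L (P l a)) *
          algebraMap k' (AlgebraicClosure L) (A (s a)) =
          algebraMap k' (AlgebraicClosure L) (A l) := by
      intro A hA l
      rw [hA l, map_sum]
      refine Finset.sum_congr rfl fun a _ => ?_
      rw [map_mul, hPP]
    have hOn2' := onC_map (L := AlgebraicClosure L) _ _ _ _ hOn2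
    have hli' := hOn2'.ind
    -- the form is zero at all points of the conic
    have key : ∀ α : AlgebraicClosure L, ((res2 (fun j => ∑ a, algebraMap k L (P j a) * x (s a))
        (fun j => ∑ a, algebraMap k L (P j a) * B2 a)
        (fun j => ∑ a, algebraMap k L (P j a) * C2 a) (up L (frm cF))).map
        (algebraMap L (AlgebraicClosure L))).eval α = 0 := by
      intro α
      obtain ⟨m, u, v, hm, huv, hyy⟩ := hCSU (AlgebraicClosure L) _ hqΩ hqdΩ _ _ _ hOnΩ
        (fun j => algebraMap L (AlgebraicClosure L) (x (s j)) +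
          α * algebraMap L (AlgebraicClosure L) (B2 j) +
          α ^ 2 * algebraMap L (AlgebraicClosure L) (C2 j)) (by
        intro h0
        obtain ⟨h1, -, -⟩ := li_coef hli' 1 α (α ^ 2) (fun i => by
          rw [one_mul]
          exact congrFun h0 i)
        exact one_ne_zero h1) (by
        have := onC_on _ hqΩ _ _ _ hOn2' 1 α
        simpa using this)
      rw [res2_eval, hFF]
      have h1 : (fun i => algebraMap L (AlgebraicClosure L)
            (∑ a, algebraMap k L (P i a) * x (s a)) +
          α * algebraMap L (AlgebraicClosure L) (∑ a, algebraMap k L (P i a) * B2 a) +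
          α ^ 2 * algebraMap L (AlgebraicClosure L) (∑ a, algebraMap k L (P i a) * C2 a)) =
          fun i => m * (u ^ 2 * algebraMap k' (AlgebraicClosure L) (A i) +
            u * v * algebraMap k' (AlgebraicClosure L) (B i) +
            v ^ 2 * algebraMap k' (AlgebraicClosure L) (C i)) := by
        funext i
        rw [← hsum A hA i, ← hsum B hB i, ← hsum C hC i, map_sum, map_sum, map_sum,
          Finset.mul_sum, Finset.mul_sum, ← Finset.sum_add_distrib, ← Finset.sum_add_distrib,
          Finset.mul_sum, Finset.mul_sum, Finset.mul_sum, ← Finset.sum_add_distrib,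
          ← Finset.sum_add_distrib, Finset.mul_sum]
        refine Finset.sum_congr rfl fun a _ => ?_
        have h2 := hyy a
        rw [map_mul, map_mul, map_mul]
        linear_combination algebraMap L (AlgebraicClosure L) (algebraMap k L (P i a)) * h2
      rw [h1, eval_scale' (up_homog' (L := AlgebraicClosure L)
        (frm_homog (fun M => algebraMap k k' (cF M)))), whole (Ω := AlgebraicClosure L) _ A B C hz
        u v, mul_zero]
    refine ⟨fun j => ∑ a, algebraMap k L (P j a) * B2 a,
      fun j => ∑ a, algebraMap k L (P j a) * C2 a, ?_, ?_⟩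
    · have hli2 := li_up (fun i a => algebraMap k L (P i a)) s (by
        intro t u
        simp only [hP]
        split_ifs
        · exact map_one _
        · exact map_zero _) _ _ _ hOn2.ind
      rwa [hxx] at hli2
    · rw [hxx] at key
      have h2 : (res2 x (fun j => ∑ a, algebraMap k L (P j a) * B2 a)
        (fun j => ∑ a, algebraMap k L (P j a) * C2 a) (up L (frm cF))).map
        (algebraMap L (AlgebraicClosure L)) = 0 := by
        refine Polynomial.funext fun α => ?_
        rw [key α, Polynomial.eval_zero]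
      exact (Polynomial.map_eq_zero _).1 h2
  · -- the point is over `k'`
    refine Or.inl (hKLL k L k' (AlgebraicClosure L) hk hk' (n + 1) x ?_)
    have hl : l ≠ 0 := by
      rintro rfl
      apply hL
      refine ⟨0, 0, 0, 0, fun i => ?_⟩
      have h1 := hABC i
      rw [zero_mul] at h1
      rw [(map_eq_zero _).1 h1]
      simp
    have h1 : eval (fun i => s0 ^ 2 *
        algebraMap k' (AlgebraicClosure L) (A i) + s0 * t0 * algebraMap k' (AlgebraicClosure L)
        (B i) + t0 ^ 2 * algebraMap k' (AlgebraicClosure L) (C i))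
        (up (AlgebraicClosure L) (frm fun M => algebraMap k k' (cF M))) = 0 := by
      rw [hxs, eval_scale' (up_homog' (L := AlgebraicClosure L)
        (frm_homog (fun M => algebraMap k k' (cF M))))] at hxF'
      exact (mul_eq_zero.1 hxF').resolve_left (pow_ne_zero _ hl)
    obtain ⟨u, v, huv, h2⟩ := hz (AlgebraicClosure L) s0 t0 h1
    have h3 : ∃ ρ, s0 = ρ * algebraMap k' (AlgebraicClosure L) u ∧
        t0 = ρ * algebraMap k' (AlgebraicClosure L) v := by
      rcases huv with h | h
      · have h' : algebraMap k' (AlgebraicClosure L) u ≠ 0 := (map_ne_zero _).2 h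
        exact ⟨s0 / algebraMap k' (AlgebraicClosure L) u, by field_simp, by
          field_simp
          linear_combination - h2⟩
      · have h' : algebraMap k' (AlgebraicClosure L) v ≠ 0 := (map_ne_zero _).2 h
        exact ⟨t0 / algebraMap k' (AlgebraicClosure L) v, by
          field_simp
          linear_combination h2, by field_simp⟩
    obtain ⟨ρ, hs, ht⟩ := h3
    refine ⟨fun i => u ^ 2 * A i + u * v * B i + v ^ 2 * C i, 0, l * ρ ^ 2, 0, fun i => ?_⟩
    refine (hABC i).trans ?_
    rw [hs, ht]
    simp only [map_add, map_mul, map_pow, zero_mul, add_zero]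
    ring

/-- KLVH -/
theorem pf_KLVH (hQD : T_QD) (hNC : Pool.Agent.H30.VM.T_NC) (hNCT : T_NCT)
    (hALH : T_ALH) (hKLL : T_KLL) (hKLC : T_KLC) (hBZH : T_BZH) (hPAR : T_PAR) (hCSU : T_CSU) :
    T_KLVH := by
  intro k L _ _ _ _ hk n e e₀ he he₀ cF cH hc x y ν hFH hxF hxH κ hκ hne
  have : IsAlgClosed (algebraicClosure k (AlgebraicClosure L)) :=
    (algebraicClosure.isAlgClosure k (AlgebraicClosure L)).isAlgClosed
  exact klvh_aux hQD hNC hNCT hALH hKLL hKLC hBZH hPAR hCSU k L
    (algebraicClosure k (AlgebraicClosure L)) hk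
    (fun z => (algebraicClosure.isAlgebraic k (AlgebraicClosure L)).isAlgebraic z)
    n e e₀ he he₀ cF cH hc x y ν hFH hxF hxH κ hκ hne

end Pool.Agent.H54.AH
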